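import Pool.Agent.Helper18.SU.Goals2

/-!
MP_f2ad72_co, packet SU2 E2P of helper18: the directed path from `u` to the root in the middle set.
-/

set_option autoImplicit false

namespace Pool.Agent.Helper89.SU

open Pool.Agent.Helper18.SU
open Finset

theorem mem_nb {V : Type} (A : V → V → Prop) (d : Bool) (X : Finset V) (x y : V) :
    y ∈ nb A d X x ↔ y ∈ X ∧ Arc A d x y := by
  unfold nb
  simp only [mem_filter]

theorem iter_dep {W : Type} {r : W} {par : W → W} {dep : W → ℕ} (h : Rooted r par dep) (u : W) :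
    ∀ k ≤ dep u, dep (par^[k] u) = dep u - k := by
  intro k
  induction k with
  | zero => intro _; rfl
  | succ k ih =>
    intro hk
    have h1 := ih (by omega)
    have hne : par^[k] u ≠ r := by
      intro h2
      rw [h2, h.1] at h1
      omega
    have h3 := h.2.2 _ hne
    rw [Function.iterate_succ_apply']
    omega

theorem iter_root {W : Type} {r : W} {par : W → W} {dep : W → ℕ} (h : Rooted r par dep) (u : W) :
    par^[dep u] u = r := by
  by_contra hne
  have h1 := h.2.2 _ hne
  rw [iter_dep h u _ le_rfl] at h1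
  omega

theorem E2P (h1 : PTF_stmt) (h2 : EX2_stmt) (h3 : LF_stmt) (_h4 : DSC_stmt) (_h5 : DEG_stmt) :
    E2P_stmt := by
  intro W V _ _ _ _ A hA r u par dep hR sgn LO LI hBrm s hcard hsgn M X B hMX hMB hXB hM hX hB
  obtain ⟨hLO, hLI, hch, huO, huI⟩ := hBrm
  have hrO : r ∉ LO := fun h => (hLO r h).1 rfl
  have hrI : r ∉ LI := fun h => (hLI r h).1 rfl
  have hdis : Disjoint LO LI := by
    rw [disjoint_left]
    intro c hc hc'
    have e1 := (hLO c hc).2.2
    have e2 := (hLI c hc').2.2
    rw [e1] at e2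
    cases e2
  set S : Finset W := Finset.univ \ (LO ∪ LI) with hS
  have memS : ∀ v, v ∈ S ↔ v ∉ LO ∧ v ∉ LI := by
    intro v
    rw [hS, mem_sdiff, mem_union, not_or]
    exact ⟨fun h => h.2, fun h => ⟨mem_univ _, h⟩⟩
  have hScard : S.card = s := by
    rw [hS, card_sdiff_of_subset (subset_univ _), card_union_of_disjoint hdis, card_univ]
    omega
  have hScl : ∀ v ∈ S, par v ∈ S := by
    intro v _
    by_cases hv : v = r
    · rw [hv, hR.2.1, memS]
      exact ⟨hrO, hrI⟩
    · rw [memS]
      exact hch v hv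
  -- the path
  set S₀ : Finset W := (range (dep u + 1)).image (fun k => par^[k] u) with hS₀
  have memS₀ : ∀ v, v ∈ S₀ ↔ ∃ k ≤ dep u, par^[k] u = v := by
    intro v
    rw [hS₀, mem_image]
    constructor
    · rintro ⟨k, hk, rfl⟩
      rw [mem_range] at hk
      exact ⟨k, by omega, rfl⟩
    · rintro ⟨k, hk, rfl⟩
      exact ⟨k, by rw [mem_range]; omega, rfl⟩
  have hrS₀ : r ∈ S₀ := (memS₀ r).2 ⟨dep u, le_rfl, iter_root hR u⟩
  have huS₀ : u ∈ S₀ := (memS₀ u).2 ⟨0, Nat.zero_le _, rfl⟩
  have hS₀cl : ∀ v ∈ S₀, par v ∈ S₀ := by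
    intro v hv
    obtain ⟨k, hk, rfl⟩ := (memS₀ v).1 hv
    rcases Nat.lt_or_ge k (dep u) with hlt | hge
    · exact (memS₀ _).2 ⟨k + 1, hlt, Function.iterate_succ_apply' _ _ _⟩
    · have : k = dep u := le_antisymm hk hge
      rw [this, iter_root hR u, hR.2.1]
      exact hrS₀
  have hsub : S₀ ⊆ S := by
    intro v hv
    obtain ⟨k, -, rfl⟩ := (memS₀ v).1 hv
    clear hv
    induction k with
    | zero => exact (memS u).2 ⟨huO, huI⟩
    | succ k ih =>
      rw [Function.iterate_succ_apply']
      exact hScl _ ih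
  obtain ⟨g, hgM, hginj, hgarc⟩ := h1 V A hA (dep u + 1) (fun _ => true) M (by omega)
  set f₀ : W → V := fun w => g (dep u - dep w) with hf₀
  have hf₀k : ∀ k ≤ dep u, f₀ (par^[k] u) = g k := by
    intro k hk
    have : dep u - dep (par^[k] u) = k := by
      rw [iter_dep hR u k hk]
      omega
    simp only [hf₀]
    rw [this]
  have hf₀M : ∀ v ∈ S₀, f₀ v ∈ M := by
    intro v hv
    obtain ⟨k, hk, rfl⟩ := (memS₀ v).1 hv
    rw [hf₀k k hk]
    exact hgM k (by omega)
  have hEmb₀ : Emb A r par sgn S₀ Finset.univ f₀ := by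
    refine ⟨fun v _ => mem_univ _, ?_, ?_⟩
    · intro v hv w hw h
      obtain ⟨i, hi, rfl⟩ := (memS₀ v).1 hv
      obtain ⟨j, hj, rfl⟩ := (memS₀ w).1 hw
      rw [hf₀k i hi, hf₀k j hj] at h
      rw [hginj i (by omega) j (by omega) h]
    · intro v hv hne _
      obtain ⟨i, hi, rfl⟩ := (memS₀ v).1 hv
      have hlt : i < dep u := by
        rcases Nat.lt_or_ge i (dep u) with h | h
        · exact h
        · exfalso
          apply hne
          rw [le_antisymm hi h]
          exact iter_root hR u
      have e1 : par (par^[i] u) = par^[i + 1] u := (Function.iterate_succ_apply' _ _ _).symm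
      rw [hsgn i hne, e1, hf₀k (i + 1) hlt, hf₀k i hi]
      exact hgarc i (by omega)
  have himg : ∀ y ∈ S₀.image f₀, y ∈ M := by
    intro y hy
    obtain ⟨v, hv, rfl⟩ := mem_image.1 hy
    exact hf₀M v hv
  have htop : ∀ c ∈ tops par S₀, par c ∈ S₀ := by
    intro c hc
    unfold tops at hc
    simp only [mem_filter] at hc
    exact hc.2.2
  obtain ⟨f, hfE, hf0, -⟩ := h2 W V A hA r par dep hR sgn S₀ S hrS₀ hS₀cl hsub hScl f₀ hEmb₀
    (fun c => if sgn c = true then nb A true X (f₀ (par c)) else nb A false B (f₀ (par c)))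
    (by
      intro c hc _
      have hm := hf₀M _ (htop c hc)
      rw [hScard]
      split_ifs with h
      · have := hX _ hm
        omega
      · have := hB _ hm
        omega)
    (by
      intro c hc _ y hy
      rw [mem_sdiff, mem_nb]
      split_ifs at hy with h
      · rw [mem_nb] at hy
        refine ⟨⟨mem_univ _, by rw [h]; exact hy.2⟩, fun hyi => ?_⟩
        exact disjoint_left.1 hMX (himg y hyi) hy.1
      · rw [mem_nb] at hy
        have h' : sgn c = false := by simpa using h
        refine ⟨⟨mem_univ _, by rw [h']; exact hy.2⟩, fun hyi => ?_⟩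
        exact disjoint_left.1 hMB (himg y hyi) hy.1)
  have hfr : f r ∈ M := by
    rw [hf0 r hrS₀]
    exact hf₀M r hrS₀
  have hfu : f u ∈ M := by
    rw [hf0 u huS₀]
    exact hf₀M u huS₀
  have hic : (S.image f).card ≤ s := card_image_le.trans hScard.le
  have hP : nb A true X (f r) \ S.image f ⊆ nb A true Finset.univ (f r) \ S.image f := by
    intro y hy
    rw [mem_sdiff, mem_nb] at hy ⊢
    exact ⟨⟨mem_univ _, hy.1.2⟩, hy.2⟩
  have hQ : nb A false B (f u) \ S.image f ⊆ nb A false Finset.univ (f u) \ S.image f := by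
    intro y hy
    rw [mem_sdiff, mem_nb] at hy ⊢
    exact ⟨⟨mem_univ _, hy.1.2⟩, hy.2⟩
  have hPc : LO.card ≤ (nb A true X (f r) \ S.image f).card := by
    have e1 := le_card_sdiff (S.image f) (nb A true X (f r))
    have e2 := hX _ hfr
    omega
  have hQc : LI.card ≤ (nb A false B (f u) \ S.image f).card := by
    have e1 := le_card_sdiff (S.image f) (nb A false B (f u))
    have e2 := hB _ hfu
    omega
  have hPQ : Disjoint (nb A true X (f r) \ S.image f) (nb A false B (f u) \ S.image f) := by
    rw [disjoint_left]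
    intro y hy hy'
    rw [mem_sdiff, mem_nb] at hy hy'
    exact disjoint_left.1 hXB hy.1.1 hy'.1.1
  refine h3 W V A r u par dep hR sgn LO LI ⟨hLO, hLI, hch, huO, huI⟩ f hfE
    (hPc.trans (card_le_card hP)) (hQc.trans (card_le_card hQ)) ?_
  calc LO.card + LI.card ≤ (nb A true X (f r) \ S.image f).card +
        (nb A false B (f u) \ S.image f).card := add_le_add hPc hQc
    _ = ((nb A true X (f r) \ S.image f) ∪ (nb A false B (f u) \ S.image f)).card :=
        (card_union_of_disjoint hPQ).symm
    _ ≤ _ := card_le_card (union_subset_union hP hQ)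

end Pool.Agent.Helper89.SU
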