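import Pool.Agent.Helper18.SU.Goals3

/-!
MP_f2ad72_co, packet SU3 IBG of helper18: ball growing for one set without nearly antipodal pairs.
-/

set_option autoImplicit false

namespace Pool.Agent.Helper89.SU

open Pool.Agent.Helper18.SU

/-- A growing sequence of numbers has a slow step. -/
theorem slow_step (a : ℕ → ℕ) (g J : ℕ) (h0 : 1 ≤ a 0) (hJ : a J ≤ g ^ J) (hJ1 : 1 ≤ J) :
    ∃ j < J, a (j + 1) ≤ g * a j := by
  by_contra h
  push Not at h
  have key : ∀ j, j ≤ J → g ^ j ≤ a j ∧ (1 ≤ j → g ^ j < a j) := by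
    intro j
    induction j with
    | zero => intro _; exact ⟨by simpa using h0, by omega⟩
    | succ j ih =>
      intro hj
      have h1 := (ih (by omega)).1
      have h2 := h j (by omega)
      have h3 : g ^ (j + 1) ≤ g * a j := by
        rw [pow_succ, mul_comm]
        exact Nat.mul_le_mul_left g h1
      exact ⟨by omega, fun _ => by omega⟩
  have := (key J le_rfl).2 hJ1
  omega

/-- One step of the ball growing. -/
theorem ibg_step {V : Type} [DecidableEq V] (d : V → V → ℕ) (D δ g J : ℕ) (T : Finset V)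
    (hd0 : ∀ x, d x x = 0) (hsym : ∀ x y, d x y = d y x)
    (htri : ∀ x y z, d x z ≤ d x y + d y z)
    (hper : ∀ x y z, d x y + d y z + d x z ≤ 2 * D) (hJ1 : 1 ≤ J) (hT : T.card ≤ g ^ J)
    (hD : 2 * J * δ + δ ≤ D) (x : V) (hx : x ∈ T) :
    ∃ P ⊆ T, ∃ Q ⊆ T, 1 ≤ P.card ∧ Q.card ≤ g * P.card ∧
      (∀ z ∈ P, ∀ z' ∈ P, d z z' + δ ≤ D) ∧
      ∀ z ∈ P, ∀ y ∈ T, y ∉ Q → d z y + δ ≤ D := by
  obtain ⟨B, hB⟩ : ∃ B : ℕ → Finset V, B = fun j => T.filter (fun y => d x y ≤ j * δ) := ⟨_, rfl⟩
  obtain ⟨B', hB'⟩ : ∃ B' : ℕ → Finset V, B' = fun j => T.filter (fun y => D ≤ d x y + j * δ) :=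
    ⟨_, rfl⟩
  have hBm : ∀ j y, y ∈ B j ↔ y ∈ T ∧ d x y ≤ j * δ := by
    intro j y
    rw [hB, Finset.mem_filter]
  have hBm' : ∀ j y, y ∈ B' j ↔ y ∈ T ∧ D ≤ d x y + j * δ := by
    intro j y
    rw [hB', Finset.mem_filter]
  have hBT : ∀ j, B j ⊆ T := fun j y hy => ((hBm j y).1 hy).1
  have hBT' : ∀ j, B' j ⊆ T := fun j y hy => ((hBm' j y).1 hy).1
  have hB1 : ∀ j, 1 ≤ (B j).card := by
    intro j
    refine Finset.card_pos.2 ⟨x, (hBm j x).2 ⟨hx, ?_⟩⟩
    rw [hd0]
    exact Nat.zero_le _
  have hle : ∀ j, max (B j).card (B' j).card ≤ T.card := fun j =>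
    max_le (Finset.card_le_card (hBT j)) (Finset.card_le_card (hBT' j))
  obtain ⟨j, hj, hslow⟩ := slow_step (fun j => max (B j).card (B' j).card) g J
    ((hB1 0).trans (le_max_left _ _)) ((hle J).trans hT) hJ1
  have hjJ : 2 * (j * δ) ≤ 2 * J * δ := by
    have : j * δ ≤ J * δ := Nat.mul_le_mul_right δ hj.le
    have e : 2 * J * δ = 2 * (J * δ) := by ring
    omega
  have hj1 : (j + 1) * δ = j * δ + δ := by ring
  have hslow : max (B (j + 1)).card (B' (j + 1)).card ≤ g * max (B j).card (B' j).card := hslow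
  rcases le_total (B' j).card (B j).card with h | h
  · rw [max_eq_left h] at hslow
    refine ⟨B j, hBT j, B' (j + 1), hBT' _, hB1 j, (le_max_right _ _).trans hslow, ?_, ?_⟩
    · intro z hz z' hz'
      have h1 := ((hBm _ _).1 hz).2
      have h2 := ((hBm _ _).1 hz').2
      have h3 := htri z x z'
      rw [hsym z x] at h3
      omega
    · intro z hz y hy hyQ
      by_contra hcon
      apply hyQ
      rw [hBm']
      refine ⟨hy, ?_⟩
      have h1 := ((hBm _ _).1 hz).2
      have h3 := htri z x y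
      rw [hsym z x] at h3
      omega
  · rw [max_eq_right h] at hslow
    refine ⟨B' j, hBT' j, B (j + 1), hBT _, (hB1 j).trans h, (le_max_left _ _).trans hslow, ?_, ?_⟩
    · intro z hz z' hz'
      have h1 := ((hBm' _ _).1 hz).2
      have h2 := ((hBm' _ _).1 hz').2
      have h3 := hper x z z'
      omega
    · intro z hz y hy hyQ
      by_contra hcon
      apply hyQ
      rw [hBm]
      refine ⟨hy, ?_⟩
      have h1 := ((hBm' _ _).1 hz).2
      have h3 := hper x z y
      omega

theorem IBG : IBG_stmt := by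
  intro V _ d D δ g J μ S hd0 hsym htri hper hg hJ hS hD hμ
  have hδ : δ ≤ D := le_trans (Nat.le_add_left _ _) hD
  have key : ∀ k, k ≤ μ → ∃ Y ⊆ S, ∃ T ⊆ S, Disjoint Y T ∧
      (∀ z ∈ Y, ∀ z' ∈ Y, d z z' + δ ≤ D) ∧ (∀ z ∈ Y, ∀ y ∈ T, d z y + δ ≤ D) ∧
      k ≤ Y.card ∧ (μ ≤ Y.card ∨ S.card ≤ T.card + (1 + g) * Y.card) := by
    intro k
    induction k with
    | zero =>
      intro _
      refine ⟨∅, Finset.empty_subset _, S, Finset.Subset.refl _, Finset.disjoint_empty_left _,
        ?_, ?_, Nat.zero_le _, Or.inr (by simp)⟩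
      · intro z hz
        exact absurd hz (Finset.notMem_empty z)
      · intro z hz
        exact absurd hz (Finset.notMem_empty z)
    | succ k ih =>
      intro hk
      obtain ⟨Y, hYS, T, hTS, hdis, hYY, hYT, hkY, halt⟩ := ih (by omega)
      rcases Nat.lt_or_ge Y.card μ with h1 | h1
      swap
      · exact ⟨Y, hYS, T, hTS, hdis, hYY, hYT, by omega, Or.inl h1⟩
      have h2 : S.card ≤ T.card + (1 + g) * Y.card := by
        rcases halt with h | h
        · omega
        · exact h
      have h3 : (1 + g) * (Y.card + 1) ≤ (1 + g) * μ := Nat.mul_le_mul_left _ h1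
      have h4 : (1 + g) * (Y.card + 1) = (1 + g) * Y.card + (1 + g) := by ring
      have hT : 0 < T.card := by omega
      obtain ⟨x, hx⟩ := Finset.card_pos.1 hT
      obtain ⟨P, hPT, Q, hQT, hP1, hQc, hPP, hPy⟩ := ibg_step d D δ g J T hd0 hsym htri hper hJ
        ((Finset.card_le_card hTS).trans hS) hD x hx
      have hYP : Disjoint Y P := Finset.disjoint_of_subset_right hPT hdis
      have hcY : (Y ∪ P).card = Y.card + P.card := Finset.card_union_of_disjoint hYP
      have hPQ : P ∪ Q ⊆ T := Finset.union_subset hPT hQT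
      have hcT : (T \ (P ∪ Q)).card + (P ∪ Q).card = T.card :=
        Finset.card_sdiff_add_card_eq_card hPQ
      have hcPQ : (P ∪ Q).card ≤ P.card + Q.card := Finset.card_union_le _ _
      refine ⟨Y ∪ P, Finset.union_subset hYS (hPT.trans hTS), T \ (P ∪ Q),
        Finset.sdiff_subset.trans hTS, ?_, ?_, ?_, by omega, Or.inr ?_⟩
      · rw [Finset.disjoint_union_left]
        refine ⟨Finset.disjoint_of_subset_right Finset.sdiff_subset hdis, ?_⟩
        exact Finset.disjoint_of_subset_left (Finset.subset_union_left (s₂ := Q))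
          Finset.disjoint_sdiff
      · intro z hz z' hz'
        rcases Finset.mem_union.1 hz with h | h
        · rcases Finset.mem_union.1 hz' with h' | h'
          · exact hYY z h z' h'
          · exact hYT z h z' (hPT h')
        · rcases Finset.mem_union.1 hz' with h' | h'
          · rw [hsym]
            exact hYT z' h' z (hPT h)
          · exact hPP z h z' h'
      · intro z hz y hy
        rw [Finset.mem_sdiff, Finset.mem_union, not_or] at hy
        rcases Finset.mem_union.1 hz with h | h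
        · exact hYT z h y hy.1
        · exact hPy z h y hy.1 hy.2.2
      · have e1 : (1 + g) * (Y ∪ P).card = (1 + g) * Y.card + (P.card + g * P.card) := by
          rw [hcY]
          ring
        omega
  obtain ⟨Y, hYS, T, -, -, hYY, -, hkY, -⟩ := key μ le_rfl
  exact ⟨Y, hYS, hkY, hYY⟩

end Pool.Agent.Helper89.SU
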